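import Pool.Agent.W313.HB.Stm3

/-!
# Project HB: from coprime positive parameters to all pairs of squarefree integers
-/

set_option autoImplicit false
set_option linter.all false

namespace Pool.Agent.W490.HB

open Finset
open Pool.Agent.W313.HB
open Pool.Agent.W313.BMX (Splits)

theorem aeval_scale {n : ℕ} {K : Type} [Field K] (A P : MvPolynomial (Fin (n + 1)) ℤ) (s g : ℤ)
    (x : Fin (n + 1) → K) :
    MvPolynomial.aeval x ((MvPolynomial.C s * A) * (MvPolynomial.C g * P)) =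
      ((s * g : ℤ) : K) * MvPolynomial.aeval x (A * P) := by
  have e0 : ∀ r : ℤ, MvPolynomial.aeval x (MvPolynomial.C r : MvPolynomial (Fin (n + 1)) ℤ) =
      (r : K) := fun r => by rw [MvPolynomial.aeval_C]; simp
  simp only [map_mul, e0, Int.cast_mul]
  ring

theorem scale_ne {n : ℕ} {K : Type} [Field K] [CharZero K] (A P : MvPolynomial (Fin (n + 1)) ℤ)
    {s g : ℤ} (hs : s ≠ 0) (hg : g ≠ 0) (x : Fin (n + 1) → K) :
    MvPolynomial.aeval x ((MvPolynomial.C s * A) * (MvPolynomial.C g * P)) ≠ 0 ↔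
      MvPolynomial.aeval x (A * P) ≠ 0 := by
  rw [aeval_scale, mul_ne_zero_iff]
  refine ⟨fun h => h.2, fun h => ⟨?_, h⟩⟩
  exact Int.cast_ne_zero.2 (mul_ne_zero hs hg)

theorem scale_val {n : ℕ} {K : Type} [Field K] (A P : MvPolynomial (Fin (n + 1)) ℤ)
    (s g a : ℤ) (x : Fin (n + 1) → K) :
    (a : K) * MvPolynomial.aeval x ((MvPolynomial.C s * A) * (MvPolynomial.C g * P)) =
      ((s * g * a : ℤ) : K) * MvPolynomial.aeval x (A * P) := by
  rw [aeval_scale]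
  push_cast
  ring

theorem hasPW_scale {n : ℕ} {K : Type} [Field K] [CharZero K]
    (A B P : MvPolynomial (Fin (n + 1)) ℤ) {s1 s2 g : ℤ} (h1 : s1 ≠ 0) (h2 : s2 ≠ 0) (hg : g ≠ 0)
    (a b : ℤ) (Ω : Set (Fin (n + 1) → K)) :
    HasPW ((MvPolynomial.C s1 * A) * (MvPolynomial.C g * P))
      ((MvPolynomial.C s2 * B) * (MvPolynomial.C g * P)) a b Ω ↔
    HasPW (A * P) (B * P) (s1 * g * a) (s2 * g * b) Ω := by
  unfold HasPW
  refine exists_congr fun x => and_congr Iff.rfl ?_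
  rw [scale_ne A P h1 hg, scale_ne B P h2 hg, scale_val, scale_val]

theorem globW_scale {n : ℕ} (A B P : MvPolynomial (Fin (n + 1)) ℤ) {s1 s2 g : ℤ} (h1 : s1 ≠ 0)
    (h2 : s2 ≠ 0) (hg : g ≠ 0) (a b : ℤ) (Ωr : Set (Fin (n + 1) → ℝ))
    (Ω : ∀ p : Nat.Primes, Set (Fin (n + 1) → ℚ_[(p : ℕ)])) :
    GlobW ((MvPolynomial.C s1 * A) * (MvPolynomial.C g * P))
      ((MvPolynomial.C s2 * B) * (MvPolynomial.C g * P)) a b Ωr Ω ↔
    GlobW (A * P) (B * P) (s1 * g * a) (s2 * g * b) Ωr Ω := by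
  unfold GlobW
  refine exists_congr fun x => and_congr Iff.rfl (and_congr Iff.rfl ?_)
  rw [scale_ne A P h1 hg, scale_ne B P h2 hg, scale_val, scale_val]

theorem sqf_scale {n : ℕ} (A B P : MvPolynomial (Fin (n + 1)) ℤ) {s1 s2 g : ℤ} (h1 : s1 ≠ 0)
    (h2 : s2 ≠ 0) (hg : g ≠ 0)
    (h : Squarefree (MvPolynomial.map (Int.castRingHom ℚ) (A * B * P))) :
    Squarefree (MvPolynomial.map (Int.castRingHom ℚ)
      ((MvPolynomial.C s1 * A) * (MvPolynomial.C s2 * B) * (MvPolynomial.C g * P))) := by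
  refine Squarefree.squarefree_of_dvd ?_ h
  have hc : ((s1 * s2 * g : ℤ) : ℚ) ≠ 0 :=
    Int.cast_ne_zero.2 (mul_ne_zero (mul_ne_zero h1 h2) hg)
  refine ⟨MvPolynomial.C (((s1 * s2 * g : ℤ) : ℚ)⁻¹), ?_⟩
  have e : MvPolynomial.map (Int.castRingHom ℚ)
      ((MvPolynomial.C s1 * A) * (MvPolynomial.C s2 * B) * (MvPolynomial.C g * P)) =
      MvPolynomial.C ((s1 * s2 * g : ℤ) : ℚ) *
        MvPolynomial.map (Int.castRingHom ℚ) (A * B * P) := by
    have e0 : ∀ r : ℤ, MvPolynomial.map (Int.castRingHom ℚ)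
        (MvPolynomial.C r : MvPolynomial (Fin (n + 1)) ℤ) = MvPolynomial.C (r : ℚ) :=
      fun r => by rw [MvPolynomial.map_C]; rfl
    simp only [map_mul, e0, Int.cast_mul]
    ring
  rw [e]
  calc MvPolynomial.map (Int.castRingHom ℚ) (A * B * P)
      = MvPolynomial.C (((s1 * s2 * g : ℤ) : ℚ) * ((s1 * s2 * g : ℤ) : ℚ)⁻¹) *
        MvPolynomial.map (Int.castRingHom ℚ) (A * B * P) := by
        rw [mul_inv_cancel₀ hc, MvPolynomial.C_1, one_mul]
    _ = _ := by rw [MvPolynomial.C_mul]; ring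

/-! ### Counting pairs with a large greatest common divisor -/

theorem card_mult (H g : ℕ) (hg : 1 ≤ g) :
    ((Icc (-(H : ℤ)) H).filter (fun x => x ≠ 0 ∧ (g : ℤ) ∣ x)).card ≤ 2 * (H / g) := by
  have hsub : (Icc (-(H : ℤ)) H).filter (fun x => x ≠ 0 ∧ (g : ℤ) ∣ x) ⊆
      ((Icc 1 (H / g)).image (fun k : ℕ => (g : ℤ) * k)) ∪
        ((Icc 1 (H / g)).image (fun k : ℕ => -((g : ℤ) * k))) := by
    intro x hx
    rw [mem_filter, mem_Icc] at hx
    obtain ⟨⟨h1, h2⟩, h3, k, hk⟩ := hx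
    have hg' : (0 : ℤ) < g := by exact_mod_cast hg
    rw [mem_union, mem_image, mem_image]
    rcases lt_trichotomy k 0 with h | h | h
    · right
      refine ⟨k.natAbs, ?_, ?_⟩
      · rw [mem_Icc, Nat.le_div_iff_mul_le hg]
        refine ⟨by omega, ?_⟩
        have : ((k.natAbs * g : ℕ) : ℤ) ≤ H := by
          push_cast
          rw [abs_of_neg h]
          nlinarith
        exact_mod_cast this
      · rw [hk, Int.natCast_natAbs, abs_of_neg h]; ring
    · rw [h, mul_zero] at hk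
      exact absurd hk h3
    · left
      refine ⟨k.natAbs, ?_, ?_⟩
      · rw [mem_Icc, Nat.le_div_iff_mul_le hg]
        refine ⟨by omega, ?_⟩
        have : ((k.natAbs * g : ℕ) : ℤ) ≤ H := by
          push_cast
          rw [abs_of_pos h]
          nlinarith
        exact_mod_cast this
      · rw [hk, Int.natCast_natAbs, abs_of_pos h]
  refine (card_le_card hsub).trans ((card_union_le _ _).trans ?_)
  have a1 : ((Icc 1 (H / g)).image (fun k : ℕ => (g : ℤ) * k)).card ≤ H / g := by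
    refine card_image_le.trans (by simp)
  have a2 : ((Icc 1 (H / g)).image (fun k : ℕ => -((g : ℤ) * k))).card ≤ H / g := by
    refine card_image_le.trans (by simp)
  omega

theorem big_gcd (H g0 : ℕ) (hg0 : 1 ≤ g0) :
    ((((Icc (-(H : ℤ)) H) ×ˢ (Icc (-(H : ℤ)) H)).filter (fun x : ℤ × ℤ => x.1 ≠ 0 ∧ x.2 ≠ 0 ∧
      g0 < Int.gcd x.1 x.2)).card : ℝ) ≤ 4 / g0 * (H : ℝ) ^ 2 := by
  set M : ℕ → Finset ℤ := fun g => (Icc (-(H : ℤ)) H).filter (fun x => x ≠ 0 ∧ (g : ℤ) ∣ x)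
    with hM
  have hsub : ((Icc (-(H : ℤ)) H) ×ˢ (Icc (-(H : ℤ)) H)).filter (fun x : ℤ × ℤ => x.1 ≠ 0 ∧
      x.2 ≠ 0 ∧ g0 < Int.gcd x.1 x.2) ⊆ (Ioc g0 H).biUnion (fun g => M g ×ˢ M g) := by
    rintro ⟨x, y⟩ hx
    rw [mem_filter, mem_product] at hx
    obtain ⟨⟨h1, h2⟩, h3, h4, h5⟩ := hx
    simp only at h1 h2 h3 h4 h5
    rw [mem_biUnion]
    refine ⟨Int.gcd x y, ?_, ?_⟩
    · rw [mem_Ioc]
      refine ⟨h5, ?_⟩
      have h6 : Int.gcd x y ≤ x.natAbs :=
        Nat.le_of_dvd (Int.natAbs_pos.2 h3) (Int.gcd_dvd_natAbs_left x y)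
      rw [mem_Icc] at h1
      omega
    · rw [mem_product, hM]
      simp only [mem_filter]
      exact ⟨⟨h1, h3, Int.gcd_dvd_left x y⟩, ⟨h2, h4, Int.gcd_dvd_right x y⟩⟩
  have h1 := (card_le_card hsub).trans card_biUnion_le
  have h2 : ((∑ g ∈ Ioc g0 H, (M g ×ˢ M g).card : ℕ) : ℝ) ≤
      ∑ g ∈ Ioc g0 H, 4 * (H : ℝ) ^ 2 * ((g : ℝ) ^ 2)⁻¹ := by
    push_cast
    refine sum_le_sum fun g hg => ?_
    rw [mem_Ioc] at hg
    have hgp : (0 : ℝ) < g := by
      have : 0 < g := by omega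
      exact_mod_cast this
    rw [card_product]
    push_cast
    have h3 : ((M g).card : ℝ) ≤ 2 * (H : ℝ) / g := by
      have h4 := card_mult H g (by omega)
      have h5 : ((M g).card : ℝ) ≤ ((2 * (H / g) : ℕ) : ℝ) := by exact_mod_cast h4
      push_cast at h5
      have h6 : ((H / g : ℕ) : ℝ) ≤ (H : ℝ) / g := Nat.cast_div_le
      calc ((M g).card : ℝ) ≤ 2 * ((H / g : ℕ) : ℝ) := h5
        _ ≤ 2 * ((H : ℝ) / g) := by linarith
        _ = _ := by ring
    calc ((M g).card : ℝ) * ((M g).card : ℝ) ≤ (2 * (H : ℝ) / g) * (2 * (H : ℝ) / g) :=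
          mul_le_mul h3 h3 (Nat.cast_nonneg _) (by positivity)
      _ = _ := by field_simp; ring
  have h3 : ∑ g ∈ Ioc g0 H, 4 * (H : ℝ) ^ 2 * ((g : ℝ) ^ 2)⁻¹ ≤ 4 / g0 * (H : ℝ) ^ 2 := by
    rw [← mul_sum]
    rcases le_or_gt g0 H with h | h
    · have h4 := sum_Ioc_inv_sq_le_sub (α := ℝ) (k := g0) (n := H) (by omega) h
      have h5 : (0 : ℝ) ≤ (H : ℝ)⁻¹ := by positivity
      calc 4 * (H : ℝ) ^ 2 * ∑ g ∈ Ioc g0 H, ((g : ℝ) ^ 2)⁻¹
          ≤ 4 * (H : ℝ) ^ 2 * (g0 : ℝ)⁻¹ := by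
            refine mul_le_mul_of_nonneg_left ?_ (by positivity)
            linarith
        _ = _ := by ring
    · rw [Ioc_eq_empty (by omega), sum_empty, mul_zero]
      positivity
  have h4 : ((((Icc (-(H : ℤ)) H) ×ˢ (Icc (-(H : ℤ)) H)).filter (fun x : ℤ × ℤ => x.1 ≠ 0 ∧
      x.2 ≠ 0 ∧ g0 < Int.gcd x.1 x.2)).card : ℝ) ≤ ((∑ g ∈ Ioc g0 H, (M g ×ˢ M g).card : ℕ) : ℝ) := by
    exact_mod_cast h1
  exact h4.trans (h2.trans h3)

/-! ### The theorem -/

open Classical in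
/-- the bad pairs of coprime parameters -/
noncomputable def BadW (n : ℕ) (A B C : MvPolynomial (Fin (n + 1)) ℤ)
    (Ωr : Set (Fin (n + 1) → ℝ)) (Ω : ∀ p : Nat.Primes, Set (Fin (n + 1) → ℚ_[(p : ℕ)]))
    (H : ℕ) : Finset (ℕ × ℕ) :=
  ((Icc 1 H) ×ˢ (Icc 1 H)).filter (fun x : ℕ × ℕ => Squarefree x.1 ∧ Squarefree x.2 ∧
      x.1.Coprime x.2 ∧ HasPW (A * C) (B * C) (x.1 : ℤ) (x.2 : ℤ) Ωr ∧
      (∀ p : Nat.Primes, HasPW (A * C) (B * C) (x.1 : ℤ) (x.2 : ℤ) (Ω p)) ∧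
      ¬ GlobW (A * C) (B * C) (x.1 : ℤ) (x.2 : ℤ) Ωr Ω)

/-- **T2F** -/
theorem t2f_ (h : S_T2W) : S_T2F := by
  intro n α β γ A B P hA hB hP he1 he2 hγ hsq Ωr Ω hΩr hΩ hfin ε hε
  obtain ⟨g0, hg0⟩ := exists_nat_gt (8 / ε)
  have hg0p : (0 : ℝ) < g0 := lt_trans (by positivity) hg0
  have hg01 : 1 ≤ g0 := by
    have : 0 < g0 := by exact_mod_cast hg0p
    exact this
  set ε' := ε / (8 * g0) with hε'
  have hε'0 : 0 < ε' := by positivity
  set I : Finset (ℤ × ℤ × ℕ) := ({1, -1} : Finset ℤ) ×ˢ (({1, -1} : Finset ℤ) ×ˢ Icc 1 g0) with hI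
  have hIc : I.card = 4 * g0 := by
    rw [hI, card_product, card_product, Nat.card_Icc]
    have : ({1, -1} : Finset ℤ).card = 2 := by decide
    rw [this]
    omega
  have hI0 : ∀ i ∈ I, i.1 ≠ 0 ∧ i.2.1 ≠ 0 ∧ (i.2.2 : ℤ) ≠ 0 := by
    intro i hi
    rw [hI, mem_product, mem_product, mem_insert, mem_singleton, mem_insert, mem_singleton,
      mem_Icc] at hi
    obtain ⟨h1, h2, h3, h4⟩ := hi
    refine ⟨by omega, by omega, by omega⟩
  have hT : ∀ i : ℤ × ℤ × ℕ, ∃ T : ℕ, i ∈ I → ∀ H : ℕ, T ≤ H →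
      ((BadW n (MvPolynomial.C i.1 * A) (MvPolynomial.C i.2.1 * B)
        (MvPolynomial.C (i.2.2 : ℤ) * P) Ωr Ω H).card : ℝ) ≤ ε' * (H : ℝ) ^ 2 := by
    intro i
    by_cases hi : i ∈ I
    · obtain ⟨a1, a2, a3⟩ := hI0 i hi
      obtain ⟨T, hT⟩ := h n α β γ (MvPolynomial.C i.1 * A) (MvPolynomial.C i.2.1 * B)
        (MvPolynomial.C (i.2.2 : ℤ) * P) (hA.C_mul _) (hB.C_mul _) (hP.C_mul _) he1 he2 hγ
        (sqf_scale A B P a1 a2 a3 hsq) Ωr Ω hΩr hΩ hfin ε' hε'0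
      exact ⟨T, fun _ => hT⟩
    · exact ⟨0, fun h => absurd h hi⟩
  choose T hT using hT
  refine ⟨I.sup T, fun H hH => ?_⟩
  classical
  set BG := ((Icc (-(H : ℤ)) H) ×ˢ (Icc (-(H : ℤ)) H)).filter (fun x : ℤ × ℤ => x.1 ≠ 0 ∧
    x.2 ≠ 0 ∧ g0 < Int.gcd x.1 x.2) with hBG
  set W : ℤ × ℤ × ℕ → Finset (ℤ × ℤ) := fun i =>
    (BadW n (MvPolynomial.C i.1 * A) (MvPolynomial.C i.2.1 * B)
        (MvPolynomial.C (i.2.2 : ℤ) * P) Ωr Ω H).image
      (fun x : ℕ × ℕ => (i.1 * i.2.2 * x.1, i.2.1 * i.2.2 * x.2)) with hW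
  have hsub : ((Icc (-(H : ℤ)) H) ×ˢ (Icc (-(H : ℤ)) H)).filter (fun x : ℤ × ℤ =>
      Squarefree x.1 ∧ Squarefree x.2 ∧ HasPW (A * P) (B * P) x.1 x.2 Ωr ∧
      (∀ p : Nat.Primes, HasPW (A * P) (B * P) x.1 x.2 (Ω p)) ∧
      ¬ GlobW (A * P) (B * P) x.1 x.2 Ωr Ω) ⊆ BG ∪ I.biUnion W := by
    rintro ⟨x, y⟩ hx
    rw [mem_filter, mem_product] at hx
    obtain ⟨⟨h1, h2⟩, h3, h4, h5, h6, h7⟩ := hx
    simp only at h1 h2 h3 h4 h5 h6 h7
    have hx0 : x ≠ 0 := h3.ne_zero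
    have hy0 : y ≠ 0 := h4.ne_zero
    rw [mem_union]
    by_cases hg : g0 < Int.gcd x y
    · left
      rw [hBG, mem_filter, mem_product]
      exact ⟨⟨h1, h2⟩, hx0, hy0, hg⟩
    · right
      set g := Int.gcd x y with hgdef
      have hgpos : 0 < g := Int.gcd_pos_of_ne_zero_left y hx0
      set a := x.natAbs / g with ha
      set b := y.natAbs / g with hb
      have hga : g * a = x.natAbs := Nat.mul_div_cancel' (Int.gcd_dvd_natAbs_left x y)
      have hgb : g * b = y.natAbs := Nat.mul_div_cancel' (Int.gcd_dvd_natAbs_right x y)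
      have hxa : x.sign * g * a = x := by
        have : (x.natAbs : ℤ) = g * a := by exact_mod_cast hga.symm
        rw [mul_assoc, ← this, Int.sign_mul_natAbs]
      have hyb : y.sign * g * b = y := by
        have : (y.natAbs : ℤ) = g * b := by exact_mod_cast hgb.symm
        rw [mul_assoc, ← this, Int.sign_mul_natAbs]
      have hsx : x.sign ≠ 0 := by rwa [Ne, Int.sign_eq_zero_iff_zero]
      have hsy : y.sign ≠ 0 := by rwa [Ne, Int.sign_eq_zero_iff_zero]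
      have hg' : (g : ℤ) ≠ 0 := by exact_mod_cast hgpos.ne'
      have hapos : 0 < a := by
        rcases Nat.eq_zero_or_pos a with h | h
        · rw [h, mul_zero] at hga
          exact absurd hga.symm (Int.natAbs_ne_zero.2 hx0)
        · exact h
      have hbpos : 0 < b := by
        rcases Nat.eq_zero_or_pos b with h | h
        · rw [h, mul_zero] at hgb
          exact absurd hgb.symm (Int.natAbs_ne_zero.2 hy0)
        · exact h
      rw [mem_biUnion]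
      refine ⟨(x.sign, y.sign, g), ?_, ?_⟩
      · rw [hI, mem_product, mem_product, mem_insert, mem_singleton, mem_insert, mem_singleton,
          mem_Icc]
        refine ⟨?_, ?_, ?_, ?_⟩
        · rcases lt_or_gt_of_ne hx0 with h | h
          · right; exact Int.sign_eq_neg_one_of_neg h
          · left; exact Int.sign_eq_one_of_pos h
        · rcases lt_or_gt_of_ne hy0 with h | h
          · right; exact Int.sign_eq_neg_one_of_neg h
          · left; exact Int.sign_eq_one_of_pos h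
        · exact hgpos
        · exact not_lt.1 hg
      · rw [hW]
        simp only
        rw [mem_image]
        refine ⟨(a, b), ?_, ?_⟩
        · unfold BadW
          rw [mem_filter, mem_product, mem_Icc, mem_Icc]
          have hale : a ≤ x.natAbs := Nat.div_le_self _ _
          have hble : b ≤ y.natAbs := Nat.div_le_self _ _
          rw [mem_Icc] at h1 h2
          refine ⟨⟨⟨hapos, by simp only; omega⟩, hbpos, by simp only; omega⟩, ?_, ?_, ?_, ?_, ?_,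
            ?_⟩
          · exact Squarefree.squarefree_of_dvd ⟨g, by rw [mul_comm]; exact hga.symm⟩
              (Int.squarefree_natAbs.2 h3)
          · exact Squarefree.squarefree_of_dvd ⟨g, by rw [mul_comm]; exact hgb.symm⟩
              (Int.squarefree_natAbs.2 h4)
          · exact Nat.coprime_div_gcd_div_gcd hgpos
          · rw [hasPW_scale A B P hsx hsy hg', hxa, hyb]
            exact h5
          · intro p
            rw [hasPW_scale A B P hsx hsy hg', hxa, hyb]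
            exact h6 p
          · rw [globW_scale A B P hsx hsy hg', hxa, hyb]
            exact h7
        · simp only
          rw [hxa, hyb]
  have c1 := (card_le_card hsub).trans ((card_union_le _ _).trans
    (Nat.add_le_add_left card_biUnion_le _))
  have c2 : (BG.card : ℝ) ≤ 4 / g0 * (H : ℝ) ^ 2 := big_gcd H g0 hg01
  have c3 : ((∑ i ∈ I, (W i).card : ℕ) : ℝ) ≤ (4 * g0) * (ε' * (H : ℝ) ^ 2) := by
    push_cast
    have : ∀ i ∈ I, ((W i).card : ℝ) ≤ ε' * (H : ℝ) ^ 2 := by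
      intro i hi
      have h1 : (W i).card ≤ _ := card_image_le
      have h2 := hT i hi H ((Finset.le_sup hi).trans hH)
      exact le_trans (by exact_mod_cast h1) h2
    refine (sum_le_sum this).trans (le_of_eq ?_)
    rw [sum_const, nsmul_eq_mul, hIc]
    push_cast
    ring
  have c4 : ((((Icc (-(H : ℤ)) H) ×ˢ (Icc (-(H : ℤ)) H)).filter (fun x : ℤ × ℤ =>
      Squarefree x.1 ∧ Squarefree x.2 ∧ HasPW (A * P) (B * P) x.1 x.2 Ωr ∧
      (∀ p : Nat.Primes, HasPW (A * P) (B * P) x.1 x.2 (Ω p)) ∧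
      ¬ GlobW (A * P) (B * P) x.1 x.2 Ωr Ω)).card : ℝ) ≤
        (BG.card : ℝ) + ((∑ i ∈ I, (W i).card : ℕ) : ℝ) := by
    exact_mod_cast c1
  have c5 : (4 : ℝ) / g0 ≤ ε / 2 := by
    rw [div_le_div_iff₀ hg0p (by norm_num)]
    rw [div_lt_iff₀ hε] at hg0
    linarith
  have c6 : (4 * (g0 : ℝ)) * (ε' * (H : ℝ) ^ 2) = ε / 2 * (H : ℝ) ^ 2 := by
    rw [hε']; field_simp; ring
  have c7 : (0 : ℝ) ≤ (H : ℝ) ^ 2 := by positivity
  convert c4.trans (add_le_add c2 c3) |>.trans ?_ using 3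
  rw [c6]
  nlinarith [mul_le_mul_of_nonneg_right c5 c7]

end Pool.Agent.W490.HB
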